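import Mathlib

set_option autoImplicit false

namespace Pool.Agent.Results.MP_2fa119_al.NilCounterexample

/-- Formal `Ω`-monomials in the variables `X`, for a signature `Ω = ⋃ Ω n`. -/
inductive Mon (Om : ℕ → Type) (X : Type) : Type
  | var (x : X) : Mon Om X
  | op (n : ℕ) (w : Om n) (args : Fin n → Mon Om X) : Mon Om X

/-- An `Ω`-algebra structure on the vector space `A`: a multilinear operation for each symbol
(for `n = 0` this is a distinguished element). -/
structure OmAlg (k : Type) [Field k] (Om : ℕ → Type) (A : Type) [AddCommGroup A] [Module k A] where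
  op : ∀ n : ℕ, Om n → MultilinearMap k (fun _ : Fin n => A) A

section
variable {k : Type} [Field k] {Om : ℕ → Type} {A : Type} [AddCommGroup A] [Module k A]

/-- The value of a monomial under a substitution. -/
def OmAlg.eval (S : OmAlg k Om A) (s : ℕ → A) : Mon Om ℕ → A
  | .var x => s x
  | .op n w args => S.op n w (fun i => OmAlg.eval S s (args i))

/-- The elements of the free `Ω`-algebra on countably many variables are the linear
combinations `f` of monomials; this is the value of `f` under a substitution. -/
noncomputable def OmAlg.evalPoly (S : OmAlg k Om A) (s : ℕ → A) (f : Mon Om ℕ →₀ k) : A :=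
  f.sum fun t c => c • S.eval s t

/-- `f` is a polynomial identity of `A`. -/
def OmAlg.IsIdentity (S : OmAlg k Om A) (f : Mon Om ℕ →₀ k) : Prop :=
  ∀ s : ℕ → A, S.evalPoly s f = 0

/-- the number of occurrences of the variable `x` in a monomial. -/
def Mon.count (x : ℕ) : Mon Om ℕ → ℕ
  | .var y => if x = y then 1 else 0
  | .op _ _ args => ∑ i, Mon.count x (args i)

/-- `f` is multilinear in the variables `0, …, r-1`: each of them occurs exactly once in each
monomial of `f`, and no other variable occurs. -/
def Multilin (r : ℕ) (f : Mon Om ℕ →₀ k) : Prop :=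
  ∀ t ∈ f.support, ∀ x : ℕ, t.count x = if x < r then 1 else 0

/-- Ideals: subspaces `I` with `ω(a) ∈ I` whenever some `a i ∈ I` (so `n > 0`). -/
def OmAlg.IsIdeal (S : OmAlg k Om A) (I : Submodule k A) : Prop :=
  ∀ (n : ℕ) (w : Om n) (a : Fin n → A), (∃ i, a i ∈ I) → S.op n w a ∈ I

/-- The product `I · J`. -/
def OmAlg.prod (S : OmAlg k Om A) (I J : Set A) : Submodule k A :=
  Submodule.span k {x | ∃ (r : ℕ) (f : Mon Om ℕ →₀ k) (s : ℕ → A), 2 ≤ r ∧ Multilin r f ∧
    s 0 ∈ I ∧ s 1 ∈ J ∧ x = S.evalPoly s f}

/-- Prime algebras. -/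
def OmAlg.IsPrime (S : OmAlg k Om A) : Prop :=
  ∀ I J : Submodule k A, S.IsIdeal I → S.IsIdeal J → I ≠ ⊥ → J ≠ ⊥ →
    S.prod (I : Set A) (J : Set A) ≠ ⊥

/-- Subalgebras. -/
def OmAlg.IsSub (S : OmAlg k Om A) (R : Submodule k A) : Prop :=
  ∀ (n : ℕ) (w : Om n) (a : Fin n → A), (∀ i, a i ∈ R) → S.op n w a ∈ R

/-- The structure of `Ω`-algebra of a subalgebra. -/
def OmAlg.restrict (S : OmAlg k Om A) (R : Submodule k A) (hR : S.IsSub R) : OmAlg k Om R where
  op n w :=
    { toFun := fun a => ⟨S.op n w (fun i => (a i : A)), hR n w _ fun i => (a i).2⟩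
      map_update_add' := by
        intro dec a i x y
        apply Subtype.ext
        have h : ∀ z : R, (fun j => ((Function.update a i z j : R) : A)) =
            Function.update (fun j => (a j : A)) i (z : A) := by
          intro z; funext j
          by_cases hj : j = i
          · subst hj; simp
          · simp [hj]
        simp only [h, Submodule.coe_add]
        rw [MultilinearMap.map_update_add]
      map_update_smul' := by
        intro dec a i c x
        apply Subtype.ext
        have h : ∀ z : R, (fun j => ((Function.update a i z j : R) : A)) =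
            Function.update (fun j => (a j : A)) i (z : A) := by
          intro z; funext j
          by_cases hj : j = i
          · subst hj; simp
          · simp [hj]
        simp only [h, Submodule.coe_smul]
        rw [MultilinearMap.map_update_smul] }

end

/-- `A` is isomorphic to a section `R / I` of `A'`: `R` is a subalgebra of `A'`, `I` an ideal of
`R`, and `e : R / I → A` is a linear bijection carrying the operations induced by those of `R`
to those of `A`. -/
def IsoSection {k : Type} [Field k] {Om : ℕ → Type} {A A' : Type} [AddCommGroup A] [Module k A]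
    [AddCommGroup A'] [Module k A'] (S : OmAlg k Om A) (S' : OmAlg k Om A') : Prop :=
  ∃ (R : Submodule k A') (hR : S'.IsSub R) (I : Submodule k R), (S'.restrict R hR).IsIdeal I ∧
    ∃ e : (R ⧸ I) ≃ₗ[k] A, ∀ (n : ℕ) (w : Om n) (a : Fin n → R),
      e (I.mkQ ((S'.restrict R hR).op n w a)) = S.op n w (fun i => e (I.mkQ (a i)))

/-- The signature with a single symbol, of arity two. -/
inductive Bin : ℕ → Type
  | mul : Bin 2

section
variable (k : Type) [Field k]

/-- the field `k` with its multiplication. -/
noncomputable def fieldAlg : OmAlg k Bin k where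
  op := fun _ w => match w with
    | .mul => MultilinearMap.mkPiAlgebra k (Fin 2) k

/-- the commutative ring `∏ k[X]/(X^N)`. -/
abbrev Rg : Type := (N : ℕ) → (Polynomial k ⧸ Ideal.span {(Polynomial.X : Polynomial k) ^ N})

/-- its nilradical, as a vector space. -/
noncomputable abbrev Nil : Submodule k (Rg k) := (nilradical (Rg k)).restrictScalars k

/-- the nilradical of `∏ k[X]/(X^N)` with its multiplication. -/
noncomputable def nilAlg : OmAlg k Bin (Nil k) where
  op := fun _ w => match w with
    | .mul =>
      { toFun := fun a => ⟨(a 0 : Rg k) * (a 1 : Rg k), Ideal.mul_mem_right _ _ (a 0).2⟩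
        map_update_add' := by
          intro dec a i x y
          apply Subtype.ext
          fin_cases i
          · simp [add_mul]
          · simp [mul_add]
        map_update_smul' := by
          intro dec a i c x
          apply Subtype.ext
          fin_cases i
          · simpa using smul_mul_assoc c (x : Rg k) (a 1 : Rg k)
          · simpa using mul_smul_comm c (a 0 : Rg k) (x : Rg k) }

/-- number of leaves. -/
def len : Mon Bin ℕ → ℕ
  | .var _ => 1
  | .op _ _ args => ∑ i, len (args i)

variable {k}

/-- the nilpotent element `X` in the component `N`. -/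
noncomputable def tN (N : ℕ) : Nil k :=
  ⟨Pi.single N (Ideal.Quotient.mk _ Polynomial.X), by
    change _ ∈ nilradical (Rg k)
    rw [mem_nilradical]
    refine ⟨N + 1, ?_⟩
    funext M
    rw [Pi.pow_apply]
    by_cases h : M = N
    · subst h
      rw [Pi.single_eq_same, ← map_pow, Pi.zero_apply, Ideal.Quotient.eq_zero_iff_mem, pow_succ]
      exact Ideal.mul_mem_right _ _ (Ideal.mem_span_singleton_self _)
    · rw [Pi.single_eq_of_ne h, Pi.zero_apply, zero_pow (by omega)]⟩

lemma eval_nil (c : ℕ → k) (N : ℕ) (t : Mon Bin ℕ) :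
    (((nilAlg k).eval (fun i => c i • tN N) t : Nil k) : Rg k) N =
      Ideal.Quotient.mk _ (Polynomial.C ((fieldAlg k).eval c t) * Polynomial.X ^ len t) := by
  induction t with
  | var x =>
    change ((c x • tN N : Nil k) : Rg k) N = _
    have h1 : ((c x • tN N : Nil k) : Rg k) N = c x • ((tN N : Nil k) : Rg k) N := rfl
    rw [h1]
    have h2 : ((tN N : Nil k) : Rg k) N = Ideal.Quotient.mk _ Polynomial.X := by
      change (Pi.single N (Ideal.Quotient.mk _ Polynomial.X) : Rg k) N = _
      rw [Pi.single_eq_same]
    rw [h2]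
    change _ = Ideal.Quotient.mk _ (Polynomial.C (c x) * Polynomial.X ^ 1)
    rw [pow_one, ← Polynomial.smul_eq_C_mul]
    rfl
  | op n w args ih =>
    cases w with
    | mul =>
      have h1 : (((nilAlg k).eval (fun i => c i • tN N) (.op 2 .mul args) : Nil k) : Rg k) =
          (((nilAlg k).eval (fun i => c i • tN N) (args 0) : Nil k) : Rg k) *
          (((nilAlg k).eval (fun i => c i • tN N) (args 1) : Nil k) : Rg k) := rfl
      rw [h1, Pi.mul_apply, ih 0, ih 1, ← map_mul]
      have h2 : (fieldAlg k).eval c (.op 2 .mul args) =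
          (fieldAlg k).eval c (args 0) * (fieldAlg k).eval c (args 1) := by
        change (MultilinearMap.mkPiAlgebra k (Fin 2) k) (fun i => (fieldAlg k).eval c (args i)) = _
        rw [MultilinearMap.mkPiAlgebra_apply, Fin.prod_univ_two]
      have h3 : len (.op 2 .mul args) = len (args 0) + len (args 1) := by
        change ∑ i, len (args i) = _
        rw [Fin.sum_univ_two]
      rw [h2, h3, Polynomial.C_mul, pow_add]
      congr 1
      ring

lemma identities (f : Mon Bin ℕ →₀ k) (h : (nilAlg k).IsIdentity f) :
    (fieldAlg k).IsIdentity f := by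
  classical
  intro c
  set P : Polynomial k := f.sum fun t b => Polynomial.C (b * (fieldAlg k).eval c t) *
    Polynomial.X ^ len t with hP
  set N : ℕ := P.natDegree + 1 with hN
  have h1 := h (fun i => c i • tN N)
  have h2 : Ideal.Quotient.mk (Ideal.span {(Polynomial.X : Polynomial k) ^ N}) P = 0 := by
    have h3 : (((nilAlg k).evalPoly (fun i => c i • tN N) f : Nil k) : Rg k) N = 0 := by
      rw [h1]; rfl
    rw [← h3]
    unfold OmAlg.evalPoly
    rw [hP, Finsupp.sum, Finsupp.sum, map_sum]
    have h4 : ((∑ t ∈ f.support, f t • (nilAlg k).eval (fun i => c i • tN N) t : Nil k) : Rg k) N =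
        ∑ t ∈ f.support, f t • (((nilAlg k).eval (fun i => c i • tN N) t : Nil k) : Rg k) N := by
      have : ((∑ t ∈ f.support, f t • (nilAlg k).eval (fun i => c i • tN N) t : Nil k) : Rg k) =
        ∑ t ∈ f.support, f t • (((nilAlg k).eval (fun i => c i • tN N) t : Nil k) : Rg k) := by
        rw [AddSubmonoidClass.coe_finsetSum]
        rfl
      rw [this, Finset.sum_apply]
      rfl
    rw [h4]
    refine Finset.sum_congr rfl fun t _ => ?_
    rw [eval_nil]
    have h5 : ∀ (b : k) (q : Polynomial k), b • (Ideal.Quotient.mk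
        (Ideal.span {(Polynomial.X : Polynomial k) ^ N}) q) = Ideal.Quotient.mk _ (b • q) :=
      fun b q => rfl
    rw [h5, Polynomial.smul_eq_C_mul, Polynomial.C_mul, mul_assoc]
  rw [Ideal.Quotient.eq_zero_iff_mem, Ideal.mem_span_singleton] at h2
  have hP0 : P = 0 := by
    by_contra hne
    have := Polynomial.natDegree_le_of_dvd h2 hne
    rw [Polynomial.natDegree_X_pow] at this
    omega
  have h6 : P.eval 1 = (fieldAlg k).evalPoly c f := by
    rw [hP, Finsupp.sum, Polynomial.eval_finsetSum]
    unfold OmAlg.evalPoly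
    rw [Finsupp.sum]
    refine Finset.sum_congr rfl fun t _ => ?_
    simp
  rw [← h6, hP0, Polynomial.eval_zero]

lemma prime_field : (fieldAlg k).IsPrime := by
  intro I J _ _ hI hJ hbot
  have mem_one : ∀ K : Submodule k k, K ≠ ⊥ → (1 : k) ∈ K := by
    intro K hK
    obtain ⟨x, hx, hx0⟩ := Submodule.exists_mem_ne_zero_of_ne_bot hK
    have := K.smul_mem x⁻¹ hx
    rwa [smul_eq_mul, inv_mul_cancel₀ hx0] at this
  let t : Mon Bin ℕ := .op 2 .mul (fun i => .var i.val)
  have h1 : (fieldAlg k).evalPoly (fun _ => (1 : k)) (Finsupp.single t 1) = 1 := by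
    unfold OmAlg.evalPoly
    rw [Finsupp.sum_single_index (by simp), one_smul]
    change (MultilinearMap.mkPiAlgebra k (Fin 2) k) (fun i => (1 : k)) = 1
    rw [MultilinearMap.mkPiAlgebra_apply]; simp
  have h2 : (1 : k) ∈ (fieldAlg k).prod (I : Set k) (J : Set k) := by
    refine Submodule.subset_span ⟨2, Finsupp.single t 1, fun _ => 1, le_refl _, ?_,
      mem_one I hI, mem_one J hJ, h1.symm⟩
    intro u hu x
    have : u = t := by
      have := Finsupp.support_single_subset hu
      simpa using this
    subst this
    change ∑ i : Fin 2, (if x = i.val then 1 else 0) = _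
    rw [Fin.sum_univ_two]
    rcases Nat.lt_or_ge x 2 with hx | hx
    · interval_cases x <;> simp
    · rw [if_neg (by simp; omega), if_neg (by simp; omega), if_neg (by omega)]
  rw [hbot] at h2
  exact one_ne_zero ((Submodule.mem_bot k).1 h2)

/-- powers of an element. -/
noncomputable def pw {A' : Type} [AddCommGroup A'] [Module k A'] (S : OmAlg k Bin A') (r : A') :
    ℕ → A'
  | 0 => r
  | n + 1 => S.op 2 .mul ![pw S r n, r]

lemma field_mul (x y : k) : (fieldAlg k).op 2 .mul ![x, y] = x * y := by
  change (MultilinearMap.mkPiAlgebra k (Fin 2) k) ![x, y] = _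
  rw [MultilinearMap.mkPiAlgebra_apply, Fin.prod_univ_two]
  rfl

lemma coe_pw {A' : Type} [AddCommGroup A'] [Module k A'] (S : OmAlg k Bin A')
    (R : Submodule k A') (hR : S.IsSub R) (r : R) (n : ℕ) :
    ((pw (S.restrict R hR) r n : R) : A') = pw S (r : A') n := by
  induction n with
  | zero => rfl
  | succ n ih =>
    change S.op 2 .mul (fun i => (((![pw (S.restrict R hR) r n, r] : Fin 2 → R) i : R) : A')) =
      S.op 2 .mul ![pw S (r : A') n, (r : A')]
    congr 1
    funext i
    fin_cases i
    · exact ih
    · rfl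

lemma no_section_of_nil {A' : Type} [AddCommGroup A'] [Module k A'] (S : OmAlg k Bin A')
    (hnil : ∀ x : A', ∃ n, pw S x n = 0) : ¬ IsoSection (fieldAlg k) S := by
  rintro ⟨R, hR, I, _, e, he⟩
  obtain ⟨q, hq⟩ := e.surjective 1
  obtain ⟨r, rfl⟩ := I.mkQ_surjective q
  have hpw : ∀ n, e (I.mkQ (pw (S.restrict R hR) r n)) = 1 := by
    intro n
    induction n with
    | zero => exact hq
    | succ n ih =>
      rw [pw, he]
      have : (fun i => e (I.mkQ ((![pw (S.restrict R hR) r n, r] : Fin 2 → R) i))) =
          ![(1 : k), 1] := by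
        funext i
        fin_cases i
        · exact ih
        · exact hq
      rw [this, field_mul, one_mul]
  obtain ⟨n, hn⟩ := hnil (r : A')
  have h0 : pw (S.restrict R hR) r n = 0 := by
    apply Subtype.ext
    rw [coe_pw, hn]
    rfl
  have h2 := hpw n
  rw [h0, map_zero, map_zero] at h2
  exact zero_ne_one h2

lemma val_mul (x y : Nil k) : (((nilAlg k).op 2 .mul ![x, y] : Nil k) : Rg k) =
    (x : Rg k) * (y : Rg k) := rfl

lemma val_pw (r : Nil k) (n : ℕ) :
    ((pw (nilAlg k) r n : Nil k) : Rg k) = (r : Rg k) ^ (n + 1) := by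
  induction n with
  | zero => rw [zero_add, pow_one, pw]
  | succ n ih => rw [pow_succ, ← ih, pw, val_mul]

lemma nil_nil (x : Nil k) : ∃ n, pw (nilAlg k) x n = 0 := by
  obtain ⟨n, hn⟩ := (mem_nilradical.1 x.2)
  refine ⟨n, Subtype.ext ?_⟩
  rw [val_pw, pow_succ, hn, zero_mul]
  rfl

end

/-- **Q1 is false** over every algebraically closed field `k`: for the signature with one binary
operation, the one-dimensional algebra `k` is finite-dimensional and prime and satisfies all the
identities of the nilradical of `∏_N k[X]/(X^N)`, but it is isomorphic to no section of it. -/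
theorem result (k : Type) [Field k] [IsAlgClosed k] :
    ∃ (Om : ℕ → Type) (A A' : Type) (_ : AddCommGroup A) (_ : Module k A)
      (_ : AddCommGroup A') (_ : Module k A') (S : OmAlg k Om A) (S' : OmAlg k Om A'),
      (∃ n, 2 ≤ n ∧ Nonempty (Om n)) ∧ FiniteDimensional k A ∧ S.IsPrime ∧
      (∀ f : Mon Om ℕ →₀ k, S'.IsIdentity f → S.IsIdentity f) ∧ ¬ IsoSection S S' :=
  ⟨Bin, k, Nil k, inferInstance, inferInstance, inferInstance, inferInstance, fieldAlg k,
    nilAlg k, ⟨2, le_refl _, ⟨.mul⟩⟩, inferInstance, prime_field, identities,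
    no_section_of_nil _ nil_nil⟩

end Pool.Agent.Results.MP_2fa119_al.NilCounterexample
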